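import Mathlib
import Pool.Agent.Q84.VCycle

/-!
# No smoothing-step threshold for uniform V-cycle contraction

For `α = 1/2`, `C_R = 1`, `C_{A2} = 4` and every number `m` of smoothing steps there are
admissible hierarchies whose V-cycle error operators have arbitrarily large energy norm.
-/

set_option autoImplicit false

namespace Pool.Agent.Results.MP_89e789_an.NoThreshold

open Matrix

/-- The data of a hierarchy of matrices: `A_ℓ`, prolongations `P_ℓ : ℝ^{n_ℓ} → ℝ^{n_{ℓ+1}}`,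
restrictions `R_ℓ : ℝ^{n_{ℓ+1}} → ℝ^{n_ℓ}` and the numbers `Λ_ℓ` of the Richardson smoothers.
(Only the levels `≤ L` matter for a hierarchy of depth `L`.) -/
structure Hierarchy where
  /-- the dimensions -/
  n : ℕ → ℕ
  /-- the matrices -/
  A : (l : ℕ) → Matrix (Fin (n l)) (Fin (n l)) ℝ
  /-- the prolongations -/
  P : (l : ℕ) → Matrix (Fin (n (l + 1))) (Fin (n l)) ℝ
  /-- the restrictions -/
  R : (l : ℕ) → Matrix (Fin (n l)) (Fin (n (l + 1))) ℝ
  /-- the smoother constants -/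
  Λ : ℕ → ℝ

/-- The spectral radius of a real (symmetric) matrix. -/
noncomputable def rho {k : ℕ} (B : Matrix (Fin k) (Fin k) ℝ) : ℝ := (spectralRadius ℝ B).toReal

/-- The Euclidean norm. -/
noncomputable def euclid {k : ℕ} (v : Fin k → ℝ) : ℝ := Real.sqrt (v ⬝ᵥ v)

/-- The energy inner product `⟨u, v⟩_B = uᵀ B v`. -/
def energyInner {k : ℕ} (B : Matrix (Fin k) (Fin k) ℝ) (u v : Fin k → ℝ) : ℝ := u ⬝ᵥ (B *ᵥ v)

/-- The energy norm `‖v‖_B = (vᵀ B v)^{1/2}`. -/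
noncomputable def energyNorm {k : ℕ} (B : Matrix (Fin k) (Fin k) ℝ) (v : Fin k → ℝ) : ℝ :=
  Real.sqrt (energyInner B v v)

namespace Hierarchy

variable (H : Hierarchy)

/-- The smoother `K_ℓ = I - Λ_ℓ⁻¹ A_ℓ`. -/
noncomputable def K (l : ℕ) : Matrix (Fin (H.n l)) (Fin (H.n l)) ℝ := 1 - (H.Λ l)⁻¹ • H.A l

/-- `Π_ℓ = A_ℓ⁻¹ R_ℓ A_{ℓ+1}`. -/
noncomputable def Pi (l : ℕ) : Matrix (Fin (H.n l)) (Fin (H.n (l + 1))) ℝ :=
  (H.A l)⁻¹ * H.R l * H.A (l + 1)

/-- The error operator of the cycle with parameter `p` and `m` smoothing steps: `E_0 = 0`,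
`E_ℓ = K_ℓ^m (I - P_{ℓ-1} (I - E_{ℓ-1}^p) Π_{ℓ-1}) K_ℓ^m`. -/
noncomputable def err (p m : ℕ) : (l : ℕ) → Matrix (Fin (H.n l)) (Fin (H.n l)) ℝ
  | 0 => 0
  | l + 1 => H.K (l + 1) ^ m * (1 - H.P l * (1 - err p m l ^ p) * H.Pi l) * H.K (l + 1) ^ m

/-- A hierarchy of depth `L` satisfying (G3) with parameter `r`, (R) with constant `CR` and
`(A2)_α` with constant `C`. -/
structure Admissible (L : ℕ) (r CR C α : ℝ) : Prop where
  posDef : ∀ l ≤ L, (H.A l).PosDef
  fullRank : ∀ l < L, (H.P l).rank = H.n l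
  g3_restriction : ∀ l < L, H.R l = r • (H.P l)ᵀ
  g3_galerkin : ∀ l < L, H.R l * H.A (l + 1) * H.P l = (2 : ℝ) • H.A l
  richardson : ∀ l < L, rho (H.A (l + 1)) ≤ H.Λ (l + 1) ∧ H.Λ (l + 1) ≤ CR * rho (H.A (l + 1))
  a2 : ∀ l < L, ∀ v : Fin (H.n (l + 1)) → ℝ,
    |energyInner (H.A (l + 1)) ((1 - H.P l * H.Pi l) *ᵥ v) v| ≤
      C ^ (2 * α) / rho (H.A (l + 1)) ^ α *
        euclid (H.A (l + 1) *ᵥ v) ^ (2 * α) * energyNorm (H.A (l + 1)) v ^ (2 * (1 - α))

end Hierarchy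

/-- Uniform V-cycle contraction for `(CR, C, α, m)`: some `δ < 1` bounds the energy norm of the
V-cycle error operator of every admissible hierarchy (for every `r ∈ (0,1)` in (G3)) of every
depth `L ≥ 1`. -/
def UniformContraction (CR C α : ℝ) (m : ℕ) : Prop :=
  ∃ δ : ℝ, δ < 1 ∧ ∀ (H : Hierarchy) (L : ℕ) (r : ℝ), 1 ≤ L → 0 < r → r < 1 →
    H.Admissible L r CR C α →
      ∀ v : Fin (H.n L) → ℝ,
        energyNorm (H.A L) (H.err 1 m L *ᵥ v) ≤ δ * energyNorm (H.A L) v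

/-! ### The hierarchies -/

open Q84.VCycle in
/-- the hierarchy -/
noncomputable def hier (b c s : ℝ) : Hierarchy where
  n l := l + 1
  A l := AA b l
  P l := pr b c s l
  R l := RR b c s l
  Λ _ := 1

section

variable {b c s : ℝ}

theorem rho_one (hb : 0 < b) (hb1 : b ≤ 1) (l : ℕ) : rho ((hier b c s).A (l + 1)) = 1 := by
  have := Q84.VCycle.spec_A hb hb1 l
  unfold rho
  change (spectralRadius ℝ (Q84.VCycle.AA b (l + 1))).toReal = 1
  rw [this]
  simp

theorem admissible (hb : 0 < b) (hb1 : b ≤ 1) (hc : 2 * c ^ 2 = 1 + Real.sqrt b)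
    (hcs : c ^ 2 + s ^ 2 = 1) (L : ℕ) : (hier b c s).Admissible L (1 / 2) 1 4 (1 / 2) where
  posDef l _ := Q84.VCycle.A_posDef hb l
  fullRank l _ := Q84.VCycle.P_rank hb hcs l
  g3_restriction l _ := rfl
  g3_galerkin l _ := Q84.VCycle.galerkin hb hcs l
  richardson l _ := by
    rw [rho_one hb hb1]
    exact ⟨le_rfl, by norm_num [hier]⟩
  a2 l _ v := by
    rw [rho_one hb hb1]
    have h := Q84.VCycle.approx hb hb1 hc hcs l v
    have e1 : (4 : ℝ) ^ (2 * (1 / 2) : ℝ) / (1 : ℝ) ^ (1 / 2 : ℝ) *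
        euclid ((hier b c s).A (l + 1) *ᵥ v) ^ (2 * (1 / 2) : ℝ) *
        energyNorm ((hier b c s).A (l + 1)) v ^ (2 * (1 - 1 / 2) : ℝ) =
        4 * euclid ((hier b c s).A (l + 1) *ᵥ v) * energyNorm ((hier b c s).A (l + 1)) v := by
      have a1 : (2 * (1 / 2) : ℝ) = 1 := by norm_num
      have a2 : (2 * (1 - 1 / 2) : ℝ) = 1 := by norm_num
      rw [a1, a2, Real.rpow_one, Real.rpow_one, Real.rpow_one, Real.one_rpow, div_one]
    rw [e1]
    exact h

theorem err_eq (hb : 0 < b) (hc : 2 * c ^ 2 = 1 + Real.sqrt b) (m : ℕ) (hm : 1 ≤ m) (l : ℕ)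
    (i j : Fin (l + 1)) :
    (hier b c s).err 1 m l i j = if i = 0 ∧ j = 0 then -Q84.VCycle.amp b m l else 0 := by
  induction l with
  | zero =>
    change (0 : Matrix (Fin 1) (Fin 1) ℝ) i j = _
    simp [Q84.VCycle.amp]
  | succ l ih =>
    have h := Q84.VCycle.step (s := s) hb hc m l hm ((hier b c s).err 1 m l) ih i j
    rw [← h, Hierarchy.err, pow_one]
    rfl

theorem large_aux {L : ℕ} (A E : Matrix (Fin (L + 1)) (Fin (L + 1)) ℝ) (a : ℝ) (ha : 0 ≤ a)
    (hE : ∀ i j, E i j = if i = 0 ∧ j = 0 then -a else 0) :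
    energyNorm A (E *ᵥ Pi.single 0 1) = a * energyNorm A (Pi.single 0 1) := by
  have h1 : E *ᵥ Pi.single 0 1 = (-a) • (Pi.single 0 1 : Fin (L + 1) → ℝ) := by
    rw [Matrix.mulVec_single_one]
    funext i
    rw [Pi.smul_apply, smul_eq_mul]
    change E i 0 = _
    rw [hE]
    by_cases hi : i = 0
    · subst hi; simp
    · rw [if_neg (fun h => hi h.1), Pi.single_eq_of_ne hi, mul_zero]
  rw [h1]
  unfold energyNorm energyInner
  rw [mulVec_smul, smul_dotProduct, dotProduct_smul, smul_smul, neg_mul_neg, smul_eq_mul,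
    Real.sqrt_mul (mul_self_nonneg _), Real.sqrt_mul_self ha]

end

/-- **There is no smoothing-step threshold.** No function `m_0(C_R, C_{A2}, α)` guarantees uniform
contraction of the V-cycle for all `m ≥ m_0`. More precisely, for `C_R = 1`, `C_{A2} = 4`,
`α = 1/2`, `r = 1/2` and every `m ≥ 1` the energy norms of the V-cycle error operators of
admissible hierarchies are unbounded. -/
theorem result :
    (¬ ∃ m₀ : ℝ → ℝ → ℝ → ℝ, ∀ CR C α : ℝ, 1 ≤ CR → 0 < C → 0 < α → α ≤ 1 →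
      ∀ m : ℕ, m₀ CR C α ≤ m → UniformContraction CR C α m) ∧
    ∀ m : ℕ, 1 ≤ m → ∀ B : ℝ, ∃ (H : Hierarchy) (L : ℕ), 1 ≤ L ∧
      H.Admissible L (1 / 2) 1 4 (1 / 2) ∧
      ∃ v : Fin (H.n L) → ℝ, 0 < energyNorm (H.A L) v ∧
        B * energyNorm (H.A L) v < energyNorm (H.A L) (H.err 1 m L *ᵥ v) := by
  have main : ∀ m : ℕ, 1 ≤ m → ∀ B : ℝ, ∃ (H : Hierarchy) (L : ℕ), 1 ≤ L ∧
      H.Admissible L (1 / 2) 1 4 (1 / 2) ∧
      ∃ v : Fin (H.n L) → ℝ, 0 < energyNorm (H.A L) v ∧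
        B * energyNorm (H.A L) v < energyNorm (H.A L) (H.err 1 m L *ᵥ v) := by
    intro m hm B
    have hmr : (1 : ℝ) ≤ m := by exact_mod_cast hm
    set β : ℝ := 1 / (4 * m) with hβ
    have hβ0 : 0 < β := by positivity
    have hβ1 : β ≤ 1 / 4 := by
      rw [hβ]; apply one_div_le_one_div_of_le <;> linarith
    set b : ℝ := β ^ 2 with hb
    have hb0 : 0 < b := by positivity
    have hb1 : b ≤ 1 := by rw [hb]; nlinarith
    have hsb : Real.sqrt b = β := by rw [hb]; exact Real.sqrt_sq hβ0.le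
    set c : ℝ := Real.sqrt ((1 + β) / 2) with hc
    set s : ℝ := Real.sqrt ((1 - β) / 2) with hs
    have hc2 : c ^ 2 = (1 + β) / 2 := Real.sq_sqrt (by linarith)
    have hs2 : s ^ 2 = (1 - β) / 2 := Real.sq_sqrt (by linarith)
    have h1 : 2 * c ^ 2 = 1 + Real.sqrt b := by rw [hc2, hsb]; ring
    have h2 : c ^ 2 + s ^ 2 = 1 := by rw [hc2, hs2]; ring
    have hbern : 1 - 1 / (8 * m) ≤ (1 - b) ^ (2 * m) := by
      have := one_add_mul_le_pow (a := -b) (by linarith) (2 * m)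
      rw [← sub_eq_add_neg] at this
      refine le_trans (le_of_eq ?_) this
      rw [hb, hβ]
      push_cast
      field_simp
      ring
    have hq : 1 ≤ (1 - b) ^ (2 * m) * (1 + Real.sqrt b) := by
      rw [hsb]
      have h3 : (1 - 1 / (8 * (m : ℝ))) * (1 + β) ≤ (1 - b) ^ (2 * m) * (1 + β) :=
        mul_le_mul_of_nonneg_right hbern (by linarith)
      refine le_trans ?_ h3
      have h4 : 1 / (8 * (m : ℝ)) = β / 2 := by rw [hβ]; field_simp; norm_num
      rw [h4]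
      nlinarith
    have hκ : 0 < (1 - b) ^ (2 * m) * Real.sqrt b := by
      rw [hsb]
      have : 0 < 1 - b := by rw [hb]; nlinarith
      positivity
    obtain ⟨L, hL⟩ := exists_nat_gt (max B 1 / ((1 - b) ^ (2 * m) * Real.sqrt b))
    have hL1 : 1 ≤ L := by
      rcases Nat.eq_zero_or_pos L with h | h
      · subst h
        exfalso
        have : 0 < max B 1 / ((1 - b) ^ (2 * m) * Real.sqrt b) := by positivity
        simp at hL
        linarith
      · exact h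
    refine ⟨hier b c s, L, hL1, admissible hb0 hb1 h1 h2 L,
      (Pi.single (0 : Fin (L + 1)) (1 : ℝ) : Fin (L + 1) → ℝ), ?_, ?_⟩
    · unfold energyNorm energyInner
      apply Real.sqrt_pos.2
      have hpd : (Q84.VCycle.AA b L).PosDef := Q84.VCycle.A_posDef hb0 L
      have h5 : (Pi.single (0 : Fin (L + 1)) (1 : ℝ) : Fin (L + 1) → ℝ) ⬝ᵥ
          (Q84.VCycle.AA b L *ᵥ (Pi.single (0 : Fin (L + 1)) (1 : ℝ) : Fin (L + 1) → ℝ)) = b := by
        rw [Matrix.mulVec_single_one, single_one_dotProduct]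
        change Q84.VCycle.AA b L 0 0 = b
        unfold Q84.VCycle.AA
        rw [diagonal_apply_eq, Q84.VCycle.dg_zero]
      change 0 < (Pi.single (0 : Fin (L + 1)) (1 : ℝ) : Fin (L + 1) → ℝ) ⬝ᵥ
          (Q84.VCycle.AA b L *ᵥ (Pi.single (0 : Fin (L + 1)) (1 : ℝ) : Fin (L + 1) → ℝ))
      rw [h5]
      exact hb0
    · have h6 := large_aux (Q84.VCycle.AA b L) ((hier b c s).err 1 m L) (Q84.VCycle.amp b m L)
        (Q84.VCycle.amp_nonneg hb1 L) (err_eq hb0 h1 m hm L)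
      refine lt_of_lt_of_eq ?_ h6.symm
      change B * energyNorm (Q84.VCycle.AA b L) (Pi.single (0 : Fin (L + 1)) (1 : ℝ)) < _
      have h7 : 0 < energyNorm (Q84.VCycle.AA b L) (Pi.single (0 : Fin (L + 1)) (1 : ℝ)) := by
        unfold energyNorm energyInner
        apply Real.sqrt_pos.2
        rw [Matrix.mulVec_single_one, single_one_dotProduct]
        change 0 < Q84.VCycle.AA b L 0 0
        unfold Q84.VCycle.AA
        rw [diagonal_apply_eq, Q84.VCycle.dg_zero]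
        exact hb0
      apply mul_lt_mul_of_pos_right _ h7
      have h8 := Q84.VCycle.amp_ge (m := m) hb1 hq L
      rw [div_lt_iff₀ hκ] at hL
      have := le_max_left B 1
      linarith
  refine ⟨?_, main⟩
  rintro ⟨m₀, hm₀⟩
  obtain ⟨m, hm⟩ := exists_nat_ge (max (m₀ 1 4 (1 / 2)) 1)
  have hm1 : 1 ≤ m := by
    have : (1 : ℝ) ≤ m := (le_max_right _ _).trans hm
    exact_mod_cast this
  obtain ⟨δ, hδ, h⟩ := hm₀ 1 4 (1 / 2) le_rfl (by norm_num) (by norm_num) (by norm_num) m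
    ((le_max_left _ _).trans hm)
  obtain ⟨H, L, hL, hadm, v, hv0, hv⟩ := main m hm1 δ
  have := h H L (1 / 2) hL (by norm_num) (by norm_num) hadm v
  linarith

end Pool.Agent.Results.MP_89e789_an.NoThreshold
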